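import Pool.Agent.K3h74.GL.Stm

/-!
# GL brick B2: weights in `A_2` satisfy the condition `B_2`
-/

set_option autoImplicit false

open MeasureTheory Set
open scoped ENNReal NNReal

namespace Pool.Agent.K3h64.GL

open Pool.Agent.K3h74.GL

/-- The volume of the interval. -/
theorem vol_I (z y : ℝ) : volume (I z y) = ENNReal.ofReal (2 * y) := by
  unfold I
  rw [Real.volume_Icc]
  congr 1
  ring

theorem I_subset {z y y' : ℝ} (h : y ≤ y') : I z y ⊆ I z y' := by
  unfold I
  apply Icc_subset_Icc <;> linarith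

theorem measurableSet_I (z y : ℝ) : MeasurableSet (I z y) := measurableSet_Icc

/-- Lower bound of the maximal function of the indicator function of an interval. -/
theorem low_Mx (z y : ℝ) (hy : 0 < y) (x : ℝ) :
    ENNReal.ofReal (y / (2 * (y + |x - z|))) ≤
      Mx ((I z y).indicator (fun _ => (1 : ℝ≥0∞))) x := by
  have ha : 0 ≤ |x - z| := abs_nonneg _
  set ρ : ℝ := 2 * (y + |x - z|) with hρ
  have hρy : y ≤ ρ := by rw [hρ]; linarith
  have hρ0 : 0 < ρ := by linarith
  have hlt : |x - z| < ρ := by rw [hρ]; linarith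
  unfold Mx
  refine le_trans ?_ (le_iSup₂_of_le z ρ (le_iSup_of_le hlt le_rfl))
  rw [lintegral_indicator (measurableSet_I z y)]
  rw [Measure.restrict_restrict (measurableSet_I z y)]
  rw [inter_eq_self_of_subset_left (I_subset hρy)]
  rw [lintegral_const, one_mul, Measure.restrict_apply_univ, vol_I]
  rw [← ENNReal.ofReal_div_of_pos (by linarith)]
  apply ENNReal.ofReal_le_ofReal
  rw [mul_div_mul_left _ _ (by norm_num : (2 : ℝ) ≠ 0)]

/-- **B2**. -/
theorem t_B2 (hM : S_MAX) : S_B2 := by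
  intro C hC
  obtain ⟨K0, hK0, hK⟩ := hM 2 C (by norm_num) hC
  refine ⟨8 * K0, ENNReal.mul_ne_top (by norm_num) hK0, ?_⟩
  intro v hv z y hy
  have hpt : ∀ t, v t * ENNReal.ofReal (y / ((z - t) ^ 2 + y ^ 2)) ≤
      ENNReal.ofReal (8 / y) *
        (Mx ((I z y).indicator (fun _ => (1 : ℝ≥0∞))) t ^ (2 : ℝ) * v t) := by
    intro t
    have h1 := low_Mx z y hy t
    have ha : 0 ≤ |t - z| := abs_nonneg _
    have hsq : |t - z| ^ 2 = (z - t) ^ 2 := by rw [sq_abs]; ring
    have h2 : ENNReal.ofReal ((y / (2 * (y + |t - z|))) ^ 2) ≤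
        Mx ((I z y).indicator (fun _ => (1 : ℝ≥0∞))) t ^ (2 : ℝ) := by
      rw [ENNReal.ofReal_pow (by positivity), ENNReal.rpow_two]
      exact pow_le_pow_left₀ zero_le h1 2
    have h3 : ENNReal.ofReal (y / ((z - t) ^ 2 + y ^ 2)) ≤
        ENNReal.ofReal (8 / y) * ENNReal.ofReal ((y / (2 * (y + |t - z|))) ^ 2) := by
      rw [← ENNReal.ofReal_mul (by positivity)]
      apply ENNReal.ofReal_le_ofReal
      have e : 8 / y * (y / (2 * (y + |t - z|))) ^ 2 = 2 * y / (y + |t - z|) ^ 2 := by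
        field_simp
        ring
      rw [e, div_le_div_iff₀ (by positivity) (by positivity)]
      rw [← hsq]
      nlinarith [sq_nonneg (y - |t - z|), mul_nonneg hy.le (sq_nonneg (y - |t - z|))]
    calc v t * ENNReal.ofReal (y / ((z - t) ^ 2 + y ^ 2))
        ≤ v t * (ENNReal.ofReal (8 / y) * ENNReal.ofReal ((y / (2 * (y + |t - z|))) ^ 2)) := by
          gcongr
      _ ≤ v t * (ENNReal.ofReal (8 / y) *
            Mx ((I z y).indicator (fun _ => (1 : ℝ≥0∞))) t ^ (2 : ℝ)) := by
          gcongr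
      _ = _ := by ring
  have hf : Measurable ((I z y).indicator (fun _ => (1 : ℝ≥0∞))) :=
    measurable_const.indicator (measurableSet_I z y)
  have hKf := hK v hv _ hf
  have hint : ∫⁻ x, (I z y).indicator (fun _ => (1 : ℝ≥0∞)) x ^ (2 : ℝ) * v x =
      ∫⁻ t in I z y, v t := by
    rw [← lintegral_indicator (measurableSet_I z y)]
    apply lintegral_congr
    intro x
    by_cases hx : x ∈ I z y
    · simp [hx]
    · simp [hx]
  calc ∫⁻ t, v t * ENNReal.ofReal (y / ((z - t) ^ 2 + y ^ 2))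
      ≤ ∫⁻ t, ENNReal.ofReal (8 / y) *
        (Mx ((I z y).indicator (fun _ => (1 : ℝ≥0∞))) t ^ (2 : ℝ) * v t) :=
        lintegral_mono hpt
    _ = ENNReal.ofReal (8 / y) *
        ∫⁻ t, Mx ((I z y).indicator (fun _ => (1 : ℝ≥0∞))) t ^ (2 : ℝ) * v t :=
        lintegral_const_mul' _ _ ENNReal.ofReal_ne_top
    _ ≤ ENNReal.ofReal (8 / y) * (K0 * ∫⁻ t in I z y, v t) := by
        gcongr
        exact hKf.trans (le_of_eq (by rw [hint]))
    _ = 8 * K0 * (∫⁻ t in I z y, v t) / ENNReal.ofReal y := by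
        rw [ENNReal.ofReal_div_of_pos hy, div_eq_mul_inv, div_eq_mul_inv]
        have : ENNReal.ofReal 8 = 8 := by norm_num
        rw [this]
        ring

end Pool.Agent.K3h64.GL
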