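import Pool.Agent.K3h74.GL.Stm

/-!
# GL bricks DBL and DUAL: weights in `A_r` are doubling; the dual weight
-/

set_option autoImplicit false

open MeasureTheory Set
open scoped ENNReal NNReal

namespace Pool.Agent.K3h64.GL

open Pool.Agent.K3h74.GL

/-- The volume of the interval. -/
theorem vol_I' (z y : ℝ) : volume (I z y) = ENNReal.ofReal (2 * y) := by
  unfold I
  rw [Real.volume_Icc]
  congr 1
  ring

/-- Hölder's inequality: the length of the interval. -/
theorem len_le {r : ℝ} (hr : 1 < r) {w : ℝ → ℝ≥0∞} (hm : Measurable w) (h0 : ∀ x, w x ≠ 0)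
    (ht : ∀ x, w x ≠ ∞) (z y : ℝ) :
    ENNReal.ofReal (2 * y) ^ r ≤
      (∫⁻ x in I z y, w x) * (∫⁻ x in I z y, w x ^ (-(1 / (r - 1)))) ^ (r - 1) := by
  have hr0 : 0 < r := by linarith
  have hr1 : 0 < r - 1 := by linarith
  have hpq : r.HolderConjugate (r / (r - 1)) := Real.HolderConjugate.conjExponent hr
  have h := ENNReal.lintegral_mul_le_Lp_mul_Lq (volume.restrict (I z y)) hpq
    (f := fun x => w x ^ (1 / r)) (g := fun x => w x ^ (-(1 / r)))
    (hm.pow_const _).aemeasurable (hm.pow_const _).aemeasurable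
  have e1 : ∫⁻ x in I z y, ((fun x => w x ^ (1 / r)) * (fun x => w x ^ (-(1 / r)))) x =
      ENNReal.ofReal (2 * y) := by
    rw [← vol_I' z y, ← Measure.restrict_apply_univ, ← lintegral_one]
    apply lintegral_congr
    intro x
    simp only [Pi.mul_apply]
    rw [← ENNReal.rpow_add _ _ (h0 x) (ht x)]
    simp
  have e2 : ∀ x, (w x ^ (1 / r)) ^ r = w x := by
    intro x
    rw [← ENNReal.rpow_mul]
    rw [one_div, inv_mul_cancel₀ hr0.ne', ENNReal.rpow_one]
  have e3 : ∀ x, (w x ^ (-(1 / r))) ^ (r / (r - 1)) = w x ^ (-(1 / (r - 1))) := by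
    intro x
    rw [← ENNReal.rpow_mul]
    congr 1
    field_simp
  rw [e1] at h
  simp only [e2, e3] at h
  have h' := ENNReal.rpow_le_rpow h hr0.le
  refine h'.trans (le_of_eq ?_)
  rw [ENNReal.mul_rpow_of_nonneg _ _ hr0.le, ← ENNReal.rpow_mul, ← ENNReal.rpow_mul]
  congr 1
  · rw [one_div, inv_mul_cancel₀ hr0.ne', ENNReal.rpow_one]
  · congr 1
    field_simp

theorem t_DBL : S_DBL := by
  intro r C hr hC
  have hr0 : 0 < r := by linarith
  have hr1 : 0 < r - 1 := by linarith
  refine ⟨C * ENNReal.ofReal (5 / 2) ^ r, ENNReal.mul_ne_top hC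
    (ENNReal.rpow_ne_top_of_nonneg hr0.le ENNReal.ofReal_ne_top), ?_⟩
  intro w hw z y hy
  have h1 := len_le hr hw.meas hw.pos hw.fin z y
  have h2 := hw.ar z (5 * y) (by linarith)
  have hsub : I z y ⊆ I z (5 * y) := by
    unfold I
    apply Icc_subset_Icc <;> linarith
  have h3 : (∫⁻ x in I z y, w x ^ (-(1 / (r - 1)))) ^ (r - 1) ≤
      (∫⁻ x in I z (5 * y), w x ^ (-(1 / (r - 1)))) ^ (r - 1) :=
    ENNReal.rpow_le_rpow (lintegral_mono_set hsub) hr1.le
  have ha0 : ENNReal.ofReal (2 * y) ^ r ≠ 0 := by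
    rw [ne_eq, ENNReal.rpow_eq_zero_iff_of_pos hr0, ENNReal.ofReal_eq_zero]
    linarith
  have hat : ENNReal.ofReal (2 * y) ^ r ≠ ∞ :=
    ENNReal.rpow_ne_top_of_nonneg hr0.le ENNReal.ofReal_ne_top
  have h5 : ENNReal.ofReal (5 * y) ^ r =
      ENNReal.ofReal (5 / 2) ^ r * ENNReal.ofReal (2 * y) ^ r := by
    rw [← ENNReal.mul_rpow_of_nonneg _ _ hr0.le, ← ENNReal.ofReal_mul (by norm_num)]
    congr 2
    ring
  refine (ENNReal.mul_le_mul_iff_left ha0 hat).1 ?_
  calc (∫⁻ x in I z (5 * y), w x) * ENNReal.ofReal (2 * y) ^ r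
      ≤ (∫⁻ x in I z (5 * y), w x) * ((∫⁻ x in I z y, w x) *
          (∫⁻ x in I z (5 * y), w x ^ (-(1 / (r - 1)))) ^ (r - 1)) := by
        gcongr
        exact h1.trans (by gcongr)
    _ = ((∫⁻ x in I z (5 * y), w x) *
          (∫⁻ x in I z (5 * y), w x ^ (-(1 / (r - 1)))) ^ (r - 1)) * ∫⁻ x in I z y, w x := by
        ring
    _ ≤ (C * ENNReal.ofReal (5 * y) ^ r) * ∫⁻ x in I z y, w x := by
        gcongr
    _ = C * ENNReal.ofReal (5 / 2) ^ r * (∫⁻ x in I z y, w x) * ENNReal.ofReal (2 * y) ^ r := by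
        rw [h5]
        ring

theorem t_DUAL : S_DUAL := by
  intro r C hr hC w hw
  have hr0 : 0 < r := by linarith
  have hr1 : 0 < r - 1 := by linarith
  have hneg : -(1 / (r - 1)) < 0 := by
    have : 0 < 1 / (r - 1) := by positivity
    linarith
  refine ⟨hw.meas.pow_const _, ?_, ?_, ?_, ?_⟩
  · intro x hx
    rw [ENNReal.rpow_eq_zero_iff] at hx
    rcases hx with h | h
    · exact hw.pos x h.1
    · exact hw.fin x h.1
  · intro x hx
    rw [ENNReal.rpow_eq_top_iff] at hx
    rcases hx with h | h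
    · exact hw.pos x h.1
    · exact hw.fin x h.1
  · intro z y
    by_cases hy : 0 < y
    · have h := hw.ar z y hy
      have hw0 : ∫⁻ x in I z y, w x ≠ 0 := by
        intro h0
        rw [lintegral_eq_zero_iff hw.meas] at h0
        have h1 : ∀ᵐ x ∂(volume.restrict (I z y)), False := by
          filter_upwards [h0] with x hx
          exact hw.pos x hx
        rw [ae_iff] at h1
        simp only [not_false_eq_true, ofPred_true, Measure.restrict_apply_univ] at h1
        rw [vol_I', ENNReal.ofReal_eq_zero] at h1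
        linarith
      intro ht
      rw [ht, ENNReal.top_rpow_of_pos hr1, ENNReal.mul_top hw0] at h
      have h2 : C * ENNReal.ofReal y ^ r ≠ ∞ :=
        ENNReal.mul_ne_top hC (ENNReal.rpow_ne_top_of_nonneg hr0.le ENNReal.ofReal_ne_top)
      exact h2 (top_le_iff.1 h)
    · have h0 : volume (I z y) = 0 := by
        rw [vol_I', ENNReal.ofReal_eq_zero]
        linarith
      rw [Measure.restrict_eq_zero.2 h0, lintegral_zero_measure]
      exact ENNReal.zero_ne_top
  · intro z y hy
    have h := hw.ar z y hy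
    have e1 : r / (r - 1) - 1 = 1 / (r - 1) := by
      field_simp
      ring
    have e2 : ∀ x, (w x ^ (-(1 / (r - 1)))) ^ (-(1 / (r / (r - 1) - 1))) = w x := by
      intro x
      rw [← ENNReal.rpow_mul, e1]
      have : -(1 / (r - 1)) * -(1 / (1 / (r - 1))) = 1 := by
        field_simp
      rw [this, ENNReal.rpow_one]
    simp only [e2]
    rw [e1]
    have h' := ENNReal.rpow_le_rpow h (by positivity : 0 ≤ 1 / (r - 1))
    rw [ENNReal.mul_rpow_of_nonneg _ _ (by positivity),
      ENNReal.mul_rpow_of_nonneg _ _ (by positivity), ← ENNReal.rpow_mul,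
      ← ENNReal.rpow_mul] at h'
    have e3 : (r - 1) * (1 / (r - 1)) = 1 := by field_simp
    have e4 : r * (1 / (r - 1)) = r / (r - 1) := by ring
    rw [e3, e4, ENNReal.rpow_one] at h'
    rw [mul_comm]
    exact h'

end Pool.Agent.K3h64.GL
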